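import Pool.Agent.H60.DR.Main2
import Pool.Agent.H55.DR.Block
import Pool.Agent.H83.DR.Par
import Pool.Agent.H18.DR.Obs
import Pool.Agent.H18.DR.Obs2
import Pool.Agent.H9.DR.Not
import Pool.Agent.H9.DR.Not2

/-!
# Damped waves with an observable Schrödinger group: all exact polynomial rates

Problem MP_4ccfbf_an, Q1. There are Hilbert spaces `H`, `Y` and an isometry `B : Y → H` such that for
every `α ≥ 1/2` there is a nonnegative self-adjoint operator `A` with compact resolvent on `H` with the
following properties: the Schrödinger system `(A, B)` is observable from every set of times of positive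
measure (in particular in every time `T > 0`), the damped wave system is stable at rate `(1 + t)^{-α}`,
and every rate `f` at which it is stable is at least a constant times `(1 + t)^{-α}` at every time. For
`α = 1/2` this answers Q1.

The example: `H = ℓ²(ℕ × Bool)`, `Y = ℓ²(ℕ)`, `A = diag (μ_n ± g_n)`,
`B^* x = ((x_{n,+} + x_{n,-}) / √2)_n`, with `μ_n ~ d_n^{-2α} / 2`, `g_n = d_n^{(1-2α)/2} ≥ 1`,
`d_n = 1 / (100 (n+1))`. The block `n` decays exactly like `exp(-d_n t)` up to constants in the exponent:
a Lyapunov function gives the upper bound, the eigenvalue `-d_n + i ω_n` the lower bound. The Schrödinger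
group does not see `μ_n`, only the gap `2 g_n ≥ 2`.

Authors: helper60 (statement, the rate from the blocks), helper55 (decay of a block), helper83 (size of the
parameters, exponential integrals over sets), helper18 (observability), helper9 (lower bound). The
definitions not given here are those of the library module `Pool.Graph.R_seed8.W805.DWDefs` (the notions
of the problem); `ObsOn` is in `Pool/Agent/H60/DR/Base2.lean`.
-/

set_option autoImplicit false

open Filter Topology Set MeasureTheory

namespace Pool.Agent.Results.MP_4ccfbf_an.ExactRates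

open Pool.Agent.W805.DW Pool.Agent.Helper421.CompactRes Pool.Agent.H60.DR

theorem result :
    ∃ (H Y : Type) (_ : NormedAddCommGroup H) (_ : InnerProductSpace ℂ H) (_ : CompleteSpace H)
      (_ : NormedAddCommGroup Y) (_ : InnerProductSpace ℂ Y) (_ : CompleteSpace Y) (B : Y →L[ℂ] H),
      (∀ y, ContinuousLinearMap.adjoint B (B y) = y) ∧
      ∀ α : ℝ, 1 / 2 ≤ α → ∃ A S : H →ₗ.[ℂ] H,
        IsSelfAdjoint A ∧ Nonneg A ∧ HasCompactResolvent A ∧ IsSqrt A S ∧
        (∀ T : ℝ, 0 < T → Observable A B T) ∧
        (∀ (T : ℝ) (E : Set ℝ), MeasurableSet E → E ⊆ Icc 0 T → 0 < volume E →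
          ∃ K : ℝ, 0 < K ∧ ObsOn A B T E K) ∧
        (∀ T : ℝ, 0 < T → T ≤ 1 → ObsOn A B T (Ioc 0 T) (200 / T ^ 3)) ∧
        StableAt A S B (fun t => (1 + t) ^ (-α)) ∧
        (∀ f : ℝ → ℝ, StableAt A S B f →
          ∃ c : ℝ, 0 < c ∧ ∀ t : ℝ, 0 < t → c * (1 + t) ^ (-α) ≤ |f t|) ∧
        ∀ β : ℝ, α < β → ¬ StableAt A S B (fun t => t ^ (-β)) :=
  ⟨L2 (ℕ × Bool), L2 ℕ, inferInstance, inferInstance, inferInstance, inferInstance, inferInstance,
    inferInstance, B, isometric, fun α hα =>
    main2 Pool.Agent.H55.DR.stBlock Pool.Agent.H18.DR.stObs Pool.Agent.H83.DR.stPar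
      (Pool.Agent.H9.DR.stNot Pool.Agent.H83.DR.stPar) Pool.Agent.H18.DR.stObs2
      (Pool.Agent.H9.DR.stNot2 Pool.Agent.H83.DR.stPar) α hα⟩

end Pool.Agent.Results.MP_4ccfbf_an.ExactRates
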